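import Pool.Agent.H48.KAL.VDefs
import Pool.Agent.H72.STK.PR2

/-!
# V1: nested contexts share the information on a smoothed block
-/

set_option autoImplicit false

namespace Pool.KAL

open Finset Real MeasureTheory
open Pool.Agent.H49.Ent Pool.Agent.H32.Dense Pool.STK

namespace V1D

lemma unif_law (κ : Type) [Fintype κ] [Nonempty κ] : IsLaw (unif κ) := by
  have hc : (0 : ℝ) < Fintype.card κ := by exact_mod_cast Fintype.card_pos
  refine ⟨fun _ => by unfold unif; positivity, ?_⟩
  unfold unif
  rw [Finset.sum_const, Finset.card_univ, nsmul_eq_mul]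
  field_simp

lemma H_unif (κ : Type) [Fintype κ] [Nonempty κ] :
    H (unif κ) (fun x : κ => x) = Real.log (Fintype.card κ) := by
  have h := H_uniform (Ω := κ) (X := fun x : κ => x) (fun _ _ h => h)
  rw [← h]
  refine congrArg (fun f => H f (fun x : κ => x)) ?_
  funext x
  unfold unif
  rw [one_div]

/-- The law of the smoothed sample is a law. -/
lemma smp_law {Ω : Type} [Fintype Ω] {p : Ω → ℝ} (d S : ℕ) (hS : 0 < S) (hp : IsLaw p) :
    IsLaw (smp d S p) := by
  have : Nonempty (Fin S) := ⟨⟨0, hS⟩⟩
  exact (pr2_thm Ω (Fin d → Fin S) Unit Unit p (unif _) hp (unif_law _)).1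

/-- The entropy of the smoothed block, given the sample. -/
lemma CH_smv_self {Ω : Type} [Fintype Ω] {p : Ω → ℝ} (d S : ℕ) (hS : 0 < S) (hp : IsLaw p)
    (A : Ω → Fin d → ℤ) :
    CH (smp d S p) (smv A) (fun w => w.1) = d * Real.log S := by
  have : Nonempty (Fin S) := ⟨⟨0, hS⟩⟩
  have hl := smp_law d S hS hp
  obtain ⟨-, hm, -, hH⟩ := pr2_thm Ω (Fin d → Fin S) Ω (Fin d → Fin S) p (unif _) hp (unif_law _)
  have h1 := hH (fun ω => ω) (fun x => x)
  have h2 : H (smp d S p) (fun w => (smv A w, w.1)) = H (smp d S p) (fun w => (w.1, w.2)) := by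
    refine H_congr hl.nonneg ?_ ?_
    · intro w w' _ _ h
      have h3 : w = w' := h
      rw [h3]
    · intro w w' _ _ h
      have h3 := (Prod.ext_iff.mp h)
      simp only at h3
      refine Prod.ext h3.2 ?_
      funext i
      have h4 := congrFun h3.1 i
      unfold smv at h4
      rw [h3.2] at h4
      have h5 : ((w.2 i : ℕ) : ℤ) = ((w'.2 i : ℕ) : ℤ) := add_left_cancel h4
      exact Fin.ext (by exact_mod_cast h5)
  have h3 : H (smp d S p) (fun w => w.1) = H p (fun ω => ω) := hm.H (fun ω => ω)
  have h4 : H (unif (Fin d → Fin S)) (fun x => x) = d * Real.log S := by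
    rw [H_unif, Fintype.card_fun, Fintype.card_fin, Fintype.card_fin]
    push_cast
    rw [Real.log_pow]
  unfold CH
  rw [h2, h3]
  unfold smp
  rw [h1, h4]
  ring

/-- Lower bound: the smoothed block has at least the entropy of the smoothing. -/
lemma le_CH_smv {Ω β : Type} [Fintype Ω] {p : Ω → ℝ} (d S : ℕ) (hS : 0 < S) (hp : IsLaw p)
    (A : Ω → Fin d → ℤ) (b : Ω → β) :
    d * Real.log S ≤ CH (smp d S p) (smv A) (fun w => b w.1) := by
  have hl := smp_law d S hS hp
  rw [← CH_smv_self d S hS hp A]
  exact CH_mono_cond hl.nonneg fun w w' _ _ h => congrArg b h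

/-- Upper bound for the entropy of the smoothed block. -/
lemma CH_smv_le {Ω β : Type} [Fintype Ω] {p : Ω → ℝ} (d S L : ℕ) (hS : 0 < S) (hp : IsLaw p)
    (A : Ω → Fin d → ℤ) (hA : ∀ ω i, 0 ≤ A ω i ∧ A ω i < L)
    (b : Ω × (Fin d → Fin S) → β) :
    CH (smp d S p) (smv A) b ≤ d * Real.log ((L : ℝ) + S) := by
  have hl := smp_law d S hS hp
  have h := CH_le_card hl.nonneg hl.sum_one (smv A) b
    (fun _ => Fintype.piFinset fun _ : Fin d => Finset.Ico (0 : ℤ) ((L + S : ℕ) : ℤ))
    (by
      intro w _
      rw [Fintype.mem_piFinset]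
      intro i
      rw [Finset.mem_Ico]
      have h1 := hA w.1 i
      have h2 := (w.2 i).isLt
      unfold smv
      constructor
      · have := h1.1
        positivity
      · push_cast
        have h3 : ((w.2 i : ℕ) : ℤ) < S := by exact_mod_cast h2
        linarith [h1.2])
  refine h.trans (le_of_eq ?_)
  rw [Ex_const hl.sum_one, Fintype.card_piFinset]
  rw [Finset.prod_const, Int.card_Ico, Finset.card_univ, Fintype.card_fin]
  simp only [sub_zero, Int.toNat_natCast]
  push_cast
  rw [Real.log_pow]

end V1D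

theorem v1d_thm : V1DStmt := by
  intro d Ω β _ p S L A b N hp hS hA hb
  have hl := V1D.smp_law d S hS hp
  refine ⟨fun j => ?_, ?_⟩
  · have := CH_mono_cond hl.nonneg (X := smv A) (W' := fun w => b (j + 1) w.1)
      (W := fun w : Ω × (Fin d → Fin S) => b j w.1) (by
        intro w w' hw hw' h
        have h1 : 0 < p w.1 := by
          by_contra h0
          have : p w.1 = 0 := le_antisymm (not_lt.mp h0) (hp.nonneg _)
          unfold smp pr2 at hw
          rw [this, zero_mul] at hw
          exact lt_irrefl _ hw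
        have h2 : 0 < p w'.1 := by
          by_contra h0
          have : p w'.1 = 0 := le_antisymm (not_lt.mp h0) (hp.nonneg _)
          unfold smp pr2 at hw'
          rw [this, zero_mul] at hw'
          exact lt_irrefl _ hw'
        exact hb j _ _ h1 h2 h)
    linarith
  · rw [Finset.sum_range_sub' (fun j => CH (smp d S p) (smv A) (fun w => b j w.1)) N]
    have h1 := V1D.CH_smv_le d S L hS hp A hA (fun w => b 0 w.1)
    have h2 := V1D.le_CH_smv d S hS hp A (b N)
    have h3 : (0 : ℝ) < S := by exact_mod_cast hS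
    rw [Real.log_div (by positivity) h3.ne']
    linarith

end Pool.KAL
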