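import Pool.Agent.H90.STK.Stmts3
import Pool.Agent.H54.KVA.Defs2

/-!
# Elementary block lemma: definitions and statements

Blocks of digits are vectors of integers; they are smoothed by an independent uniform vector.
-/

set_option autoImplicit false

namespace Pool.KAL

open Finset Real MeasureTheory
open Pool.Agent.H49.Ent Pool.Agent.H32.Dense Pool.STK

/-- The law of the sample and of an independent uniform vector in the cube `[0, S) ^ d`. -/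
noncomputable def smp {Ω : Type} (d S : ℕ) (p : Ω → ℝ) : Ω × (Fin d → Fin S) → ℝ :=
  pr2 p (unif (Fin d → Fin S))

/-- The smoothed vector. -/
def smv {Ω : Type} {d S : ℕ} (A : Ω → Fin d → ℤ) (w : Ω × (Fin d → Fin S)) : Fin d → ℤ :=
  fun i => A w.1 i + ((w.2 i : ℕ) : ℤ)

/-- The law of the smoothed vector, given that `Z = z`. -/
noncomputable def smu {Ω ζ : Type} [Fintype Ω] (d S : ℕ) (p : Ω → ℝ) (A : Ω → Fin d → ℤ)
    (Z : Ω → ζ) (z : ζ) (x : Fin d → ℤ) : ℝ :=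
  law (cond (smp d S p) (fun w => Z w.1) z) (smv A) x

/-- The error terms of the block lemma. -/
noncomputable def hb (x L : ℝ) : ℝ := x * (1 - Real.log x) + x * L

/-- V1. Nested contexts share the information on the smoothed block. -/
def V1DStmt : Prop :=
  ∀ (d : ℕ) (Ω β : Type) [Fintype Ω] (p : Ω → ℝ) (S L : ℕ) (A : Ω → Fin d → ℤ)
    (b : ℕ → Ω → β) (N : ℕ), IsLaw p → 0 < S → (∀ ω i, 0 ≤ A ω i ∧ A ω i < L) →
    (∀ j, Det p (b (j + 1)) (b j)) →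
    (∀ j, 0 ≤ CH (smp d S p) (smv A) (fun w => b j w.1) -
      CH (smp d S p) (smv A) (fun w => b (j + 1) w.1)) ∧
    ∑ j ∈ range N, (CH (smp d S p) (smv A) (fun w => b j w.1) -
      CH (smp d S p) (smv A) (fun w => b (j + 1) w.1)) ≤ d * Real.log (((L : ℝ) + S) / S)

open Classical in
/-- V2. One step. `A` and `A'` are the blocks at the two times, `Z` and `Z'` the contexts (with
the times), `w` the velocities and the coarse blocks, `c Z w` the displacement. -/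
def V2DStmt : Prop :=
  ∀ (d : ℕ) (Ω ζ ζ' κ : Type) [Fintype Ω] (p : Ω → ℝ) (S M r : ℕ) (A A' : Ω → Fin d → ℤ)
    (Z : Ω → ζ) (Z' : Ω → ζ') (w : Ω → κ) (c : ζ → κ → Fin d → ℤ) (e₀ e₁ e₂ δ : ℝ), IsLaw p →
    0 < S → S ≤ M → (∀ ω i, |A ω i| ≤ M) → (∀ ω i, |A' ω i| ≤ M) → (∀ z k i, |c z k i| ≤ M) →
    (∑ ω, if ∀ i, |A' ω i - A ω i - c (Z ω) (w ω) i| ≤ r then 0 else p ω) ≤ δ →
    CH (smp d S p) (smv A') (fun v => Z' v.1) ≤ CH (smp d S p) (smv A) (fun v => Z v.1) + e₀ →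
    CH p Z' Z ≤ e₁ →
    CH (smp d S p) (smv A) (fun v => Z v.1) -
      CH (smp d S p) (smv A) (fun v => (w v.1, Z v.1)) ≤ e₂ →
    δ + d * r / S ≤ 1 →
    ∃ ν : ζ → (Fin d → ℤ) → ℝ, ∀ F : Finset (Fin d → ℤ),
      ∑ ω, p ω * ∑ x ∈ F, |smu d S p A Z (Z ω) (x - c (Z ω) (w ω)) - ν (Z ω) x| ≤
        2 * Real.sqrt e₂ +
          2 * Real.sqrt (e₀ + e₁ + e₂ + hb (δ + d * r / S) (d * Real.log (9 * M)))

/-- The size of the change of the law of the smoothed block under a translation. -/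
noncomputable def dsh {d : ℕ} (f : (Fin d → ℤ) → ℝ) (F : Finset (Fin d → ℤ))
    (x : Fin d → ℤ) : ℝ := ∑ y ∈ F, |f y - f (y - x)|

/-- V2P. The same for pairs of samples with the same context. -/
def V2PStmt : Prop :=
  ∀ (d : ℕ) (Ω Ω₂ ζ : Type) [Fintype Ω] [Fintype Ω₂] (p : Ω → ℝ) (q : Ω₂ → ℝ)
    (g₁ g₂ : Ω₂ → Ω) (Z : Ω → ζ) (μ ν : ζ → (Fin d → ℤ) → ℝ) (c : Ω → Fin d → ℤ) (e : ℝ),
    (∀ ω, law q g₁ ω = p ω) → (∀ ω, law q g₂ ω = p ω) → (∀ w, 0 ≤ q w) →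
    (∀ w, 0 < q w → Z (g₁ w) = Z (g₂ w)) →
    (∀ F : Finset (Fin d → ℤ), ∑ ω, p ω * ∑ x ∈ F, |μ (Z ω) (x - c ω) - ν (Z ω) x| ≤ e) →
    ∀ F : Finset (Fin d → ℤ), ∑ w, q w * dsh (μ (Z (g₁ w))) F (c (g₁ w) - c (g₂ w)) ≤ 2 * e

/-- V3. Read-out: if the law of `N` is almost invariant under the translations by the independent
vector `Y`, then the rows of `N` have at least the entropy of the rows of `Y`. -/
def V3DStmt : Prop :=
  ∀ d : ℕ, ∃ C : ℝ, 0 ≤ C ∧ ∀ (Ω₁ Ω₂ : Type) [Fintype Ω₁] [Fintype Ω₂] (p₁ : Ω₁ → ℝ)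
    (p₂ : Ω₂ → ℝ) (N : Ω₁ → Fin d → ℤ) (Y : Ω₂ → Fin d → ℤ) (M a g : ℕ) (e : ℝ),
    IsLaw p₁ → IsLaw p₂ → (∀ ω i, |N ω i| ≤ M) → (∀ ω i, |Y ω i| ≤ M) → 0 < a → 0 < g →
    1 ≤ M → 0 ≤ e → e ≤ 1 →
    (∀ F : Finset (Fin d → ℤ), ∑ ω, p₂ ω * dsh (law p₁ N) F (Y ω) ≤ e) →
    CH p₂ (fun ω i => Y ω i / (a : ℤ)) (fun ω i => Y ω i / ((a * g : ℕ) : ℤ)) -
      C - 4 * hb e (d * Real.log (9 * M)) ≤
      CH p₁ (fun ω i => N ω i / (a : ℤ)) (fun ω i => N ω i / ((a * g : ℕ) : ℤ))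

end Pool.KAL
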